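import Pool.Agent.TH814.GD.Ax

/-!
# A theorem of Ax-Schanuel type for the Gamma function, complete for `n` functions of rank at least `n - 1`

Let `f_1, …, f_n` be analytic functions on a connected open subset `Ω` of `ℂ^d`, none of them constant and no two of them
differing by an integer constant, and let `r` be the rank of their differentials at some point of `Ω`. Then at least
`min n (r + 1) + r` of the `2 n` functions `f_1, …, f_n, Γ(f_1), …, Γ(f_n)` are algebraically independent over `ℂ`.
If `r ≥ n - 1` this number is `n + r`, which is the bound of the functional form of the Schanuel-type conjecture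
(`tr.deg_ℂ ℂ(f, Γ(f)) ≥ n + rank(df)`). No algebraicity of the `f_i` or of relations between them is assumed, and condition
(H) is needed only in its weaker form with integer differences. For functions of one variable (`r = 1`, `n ≥ 2`): at least
three of the functions `f_i`, `Γ(f_i)` are algebraically independent.
-/

set_option autoImplicit false

namespace Pool.Agent.Results.MP_26ad15_nt.AxSchanuelCodimensionOne

/-- The rank of the differentials of `f_1, …, f_n` at `x`: the dimension of the span of `df_1(x), …, df_n(x)`. -/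
noncomputable def rankAt {d n : ℕ} (f : Fin n → (Fin d → ℂ) → ℂ) (x : Fin d → ℂ) : ℕ :=
  Module.finrank ℂ (Submodule.span ℂ (Set.range fun i => fderiv ℂ (f i) x))

/-- The `2 n` functions `f_1, …, f_n` (index `inl i`), `Γ(f_1), …, Γ(f_n)` (index `inr i`). -/
noncomputable def functions {d n : ℕ} (f : Fin n → (Fin d → ℂ) → ℂ) : Fin n ⊕ Fin n → (Fin d → ℂ) → ℂ
  | Sum.inl i, x => f i x
  | Sum.inr i, x => Complex.Gamma (f i x)

/-- `k` of the functions `f_1, …, f_n, Γ(f_1), …, Γ(f_n)` are algebraically independent over `ℂ` as functions on `Ω`: there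
are `k` different ones such that every nonzero polynomial in `k` variables has a nonzero value at them, at some point of `Ω`
where no `f_i` is a pole of `Γ`. -/
def Independent {d n : ℕ} (Ω : Set (Fin d → ℂ)) (f : Fin n → (Fin d → ℂ) → ℂ) (k : ℕ) : Prop :=
  ∃ e : Fin k → Fin n ⊕ Fin n, Function.Injective e ∧
    ∀ P : MvPolynomial (Fin k) ℂ, P ≠ 0 →
      ∃ x ∈ Ω, (∀ i, ∀ m : ℕ, f i x ≠ -m) ∧ MvPolynomial.eval (fun j => functions f (e j) x) P ≠ 0

theorem result (d n : ℕ) (Ω : Set (Fin d → ℂ)) (hΩ : IsOpen Ω) (hc : IsPreconnected Ω)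
    (f : Fin n → (Fin d → ℂ) → ℂ) (hf : ∀ i, AnalyticOnNhd ℂ (f i) Ω)
    (hne : ∀ i, ∀ v : ℂ, ¬ ∀ x ∈ Ω, f i x = v)
    (hd : ∀ i j, i ≠ j → ∀ m : ℤ, ¬ ∀ x ∈ Ω, f i x = f j x + m) (x₀ : Fin d → ℂ) (hx₀ : x₀ ∈ Ω) :
    Independent Ω f (min n (rankAt f x₀ + 1) + rankAt f x₀) ∧
      (n ≤ rankAt f x₀ + 1 → Independent Ω f (n + rankAt f x₀)) := by
  have key : Independent Ω f (min n (rankAt f x₀ + 1) + rankAt f x₀) := by
    obtain ⟨e, he, h⟩ := Pool.Agent.TH814.GD.ax (r := rankAt f x₀) hΩ hc hf hne hd ⟨x₀, hx₀, rfl⟩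
    refine ⟨e, he, fun P hP => ?_⟩
    obtain ⟨x, hx, hm, hv⟩ := h P hP
    refine ⟨x, hx, hm, ?_⟩
    have e1 : (fun j => functions f (e j) x) = fun k => Pool.Agent.TH814.GD.vals (fun i => f i x) (e k) := by
      funext k
      rcases e k with i | i <;> rfl
    rw [e1]
    exact hv
  refine ⟨key, fun h => ?_⟩
  rw [min_eq_left h] at key
  exact key

end Pool.Agent.Results.MP_26ad15_nt.AxSchanuelCodimensionOne
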