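import Pool.Agent.Q23.DM.Lam

/-!
# `Γ`, its derivatives at several points congruent modulo `ℚ`, and exponentials, at almost all algebraic numbers

Condition (H) of the conjecture excludes points which are congruent modulo `ℚ`. Here we consider such points,
`z + x_1, …, z + x_r` with `x_i` pairwise incongruent modulo `ℤ` (for instance all rational numbers in `[0, 1)` of given
denominator; the Gauss multiplication formula relates these values only with `Γ(m z)`), and all derivatives. The field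
generated by `Γ^(k)(z + x_i)`, `k ≤ s`, is generated by `Γ(z + x_i)`, `ψ(z + x_i)` and the numbers
`ζ(k, z + x_i) = ∑_{m ≥ 0} (m + z + x_i)^(-k) = (-1)^k ψ^(k-1)(z + x_i) / (k-1)!`, `2 ≤ k ≤ s`, where `ψ = Γ'/Γ`. We add
exponentials `exp(l_j z)`, where no nontrivial integral combination of the `l_j` is in `2 π i ℤ` (for instance `2^z`, `3^z`,
`5^z`, …, or `e^z` alone, or `π^z` alone). For almost all elements `z = q` of number fields of bounded degree (and for almost all `n`-tuples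
of them) all these numbers satisfy no polynomial relation of bounded degree and polynomially bounded height, not even
approximately, and relative to arbitrary constants.
-/

set_option autoImplicit false

open NumberField

namespace Pool.Agent.Results.MP_26ad15_nt.GammaAndDerivatives

/-- The values at `z`: `Γ(z + x_i)` (index `inl (i, 0)`), `ψ(z + x_i)` (index `inl (i, 1)`),
`ζ(k, z + x_i) = ∑_{m ≥ 0} (m + z + x_i)^(-k)` (index `inl (i, k)`, `2 ≤ k ≤ s`) and `exp(l_j z)` (index `inr j`). -/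
noncomputable def value {r u : ℕ} (s : ℕ) (x : Fin r → ℂ) (l : Fin u → ℂ) (z : ℂ) : (Fin r × Fin (s + 1)) ⊕ Fin u → ℂ
  | Sum.inl (i, k) =>
    if (k : ℕ) = 0 then Complex.Gamma (z + x i)
    else if (k : ℕ) = 1 then Complex.digamma (z + x i) else ∑' m : ℕ, 1 / ((m : ℂ) + (z + x i)) ^ (k : ℕ)
  | Sum.inr j => Complex.exp (l j * z)

/-- The elements of the number field `F` with image in `K` which are quotients of two integers of `F` all of whose
conjugates have absolute value at most `T`. -/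
def Points (F : Type) [Field F] [NumberField F] (ι : F →+* ℂ) (K : Set ℂ) (T : ℝ) : Set F :=
  {x | ι x ∈ K ∧ ∃ a b : 𝓞 F, b ≠ 0 ∧ (∀ φ : F →+* ℂ, ‖φ a‖ ≤ T ∧ ‖φ b‖ ≤ T) ∧ x = a / b}

/-- The `n`-tuples `t` of points of `F` for which there is a polynomial `P` of degree at most `d` in each variable, with
coefficients of the form `∑ ξ_a ι(c_a)`, where the `c_a` are integers of `F` all of whose conjugates have absolute value
at most `T ^ A`, such that the value of `P` at the numbers `value s x l (ι (t h)) y` is at most `T ^ (-B)` times the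
absolute value of some nonzero coefficient of `P`. -/
def Exceptional {r u : ℕ} (x : Fin r → ℂ) (l : Fin u → ℂ) (s n d : ℕ) {g : ℕ} (F : Type) [Field F] [NumberField F]
    (ι : F →+* ℂ) (ξ : Fin g → ℂ) (K : Set ℂ) (A B T : ℝ) : Set (Fin n → F) :=
  {t | (∀ h, t h ∈ Points F ι K T) ∧ ∃ P : MvPolynomial (Fin n × ((Fin r × Fin (s + 1)) ⊕ Fin u)) ℂ,
    (∀ y, P.degreeOf y ≤ d) ∧
    (∀ m, ∃ c : Fin g → 𝓞 F, (∀ a (φ : F →+* ℂ), ‖φ (c a)‖ ≤ T ^ A) ∧ P.coeff m = ∑ a, ξ a * ι (c a)) ∧
    ∃ m₀, P.coeff m₀ ≠ 0 ∧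
      ‖MvPolynomial.aeval (fun y : Fin n × ((Fin r × Fin (s + 1)) ⊕ Fin u) => value s x l (ι (t y.1)) y.2) P‖ ≤
        T ^ (-B) * ‖P.coeff m₀‖}

/-- the functions, in the notation of the library -/
theorem exists_rep {r u : ℕ} (s : ℕ) (x : Fin r → ℂ) (l : Fin u → ℂ) :
    ∃ (e : (Fin r × Fin (s + 1)) ⊕ Fin u → (Q23.DM.Ix (fun _ : Fin 1 => (1 : ℂ)) r s) ⊕ (Fin r ⊕ Fin u))
      (c : (Fin r × Fin (s + 1)) ⊕ Fin u → ℂ), Function.Injective e ∧ (∀ y, c y ≠ 0) ∧
      ∀ y z, value s x l z y = c y * Q23.DM.fun3 (fun _ : Fin 1 => (1 : ℂ)) x l (e y) z := by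
  have hok : ∀ k : ℕ, Q23.DM.Ok ((fun _ : Fin 1 => (1 : ℂ)) 0) (k + 1) := by
    intro k
    refine ⟨one_ne_zero, Or.inr ?_⟩
    rcases Nat.eq_zero_or_pos k with h | h
    · exact Or.inl ⟨rfl, by omega⟩
    · exact Or.inr ⟨by simp, by omega⟩
  let e : (Fin r × Fin (s + 1)) ⊕ Fin u → (Q23.DM.Ix (fun _ : Fin 1 => (1 : ℂ)) r s) ⊕ (Fin r ⊕ Fin u)
    | Sum.inl (i, k) => if h : (k : ℕ) = 0 then Sum.inr (Sum.inl i)
        else Sum.inl ⟨(0, (i, ⟨(k : ℕ) - 1, by omega⟩)), hok _⟩
    | Sum.inr j => Sum.inr (Sum.inr j)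
  let c : (Fin r × Fin (s + 1)) ⊕ Fin u → ℂ
    | Sum.inl (_, k) => if (k : ℕ) = 1 then -1 else 1
    | Sum.inr _ => 1
  have e0 : ∀ (i : Fin r) (k : Fin (s + 1)), (k : ℕ) = 0 → e (Sum.inl (i, k)) = Sum.inr (Sum.inl i) := fun i k hk =>
    dif_pos hk
  have e1 : ∀ (i : Fin r) (k : Fin (s + 1)) (hk : (k : ℕ) ≠ 0),
      e (Sum.inl (i, k)) = Sum.inl ⟨(0, (i, ⟨(k : ℕ) - 1, by omega⟩)), hok _⟩ := fun i k hk => dif_neg hk
  refine ⟨e, c, ?_, ?_, ?_⟩
  · rintro (⟨i, k⟩ | j) (⟨i', k'⟩ | j') h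
    · by_cases hk : (k : ℕ) = 0 <;> by_cases hk' : (k' : ℕ) = 0
      · rw [e0 i k hk, e0 i' k' hk'] at h
        rw [Sum.inl.inj (Sum.inr.inj h), Fin.ext (hk.trans hk'.symm)]
      · rw [e0 i k hk, e1 i' k' hk'] at h
        exact absurd h (by simp)
      · rw [e1 i k hk, e0 i' k' hk'] at h
        exact absurd h (by simp)
      · rw [e1 i k hk, e1 i' k' hk'] at h
        simp only [Sum.inl.injEq, Subtype.mk.injEq, Prod.mk.injEq, Fin.mk.injEq, true_and] at h
        have : (k : ℕ) = k' := by omega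
        rw [h.1, Fin.ext this]
    · by_cases hk : (k : ℕ) = 0
      · rw [e0 i k hk] at h
        exact absurd (Sum.inr.inj h) (by simp)
      · rw [e1 i k hk] at h
        exact absurd h (by simp [e])
    · by_cases hk : (k' : ℕ) = 0
      · rw [e0 i' k' hk] at h
        exact absurd (Sum.inr.inj h) (by simp)
      · rw [e1 i' k' hk] at h
        exact absurd h (by simp [e])
    · have h1 : j = j' := Sum.inr.inj (Sum.inr.inj h)
      rw [h1]
  · rintro (⟨i, k⟩ | j)
    · simp only [c]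
      split_ifs <;> norm_num
    · exact one_ne_zero
  · rintro (⟨i, k⟩ | j) z
    · by_cases hk : (k : ℕ) = 0
      · rw [e0 i k hk]
        simp [value, c, hk, Q23.DM.fun3]
      · rw [e1 i k hk]
        by_cases hk1 : (k : ℕ) = 1
        · simp [value, c, hk1, Q23.DM.fun3, Q23.DM.Lam]
        · have h3 : (k : ℕ) - 1 + 1 = k := by omega
          simp [value, c, hk, hk1, Q23.DM.fun3, Q23.DM.Lam, h3]
    · simp [value, c, e, Q23.DM.fun3]

/-- Let `x_1, …, x_r` be complex numbers with `x_i - x_j ∉ ℤ` for `i ≠ j` and `l_1, …, l_u` complex numbers no nontrivial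
integral combination of which is in `2 π i ℤ`. For every compact set `K` with `Re (z + x_i) > 0` for all `z ∈ K` and all
`i`, and all `s`, `m`, `n`, `g`, `d`, `A` and `ε > 0` there are `B`, `C`, `T₀` such that for every number field `F` of
degree at most `m`, every embedding of `F` in `ℂ`, all complex numbers `ξ_1, …, ξ_g` and all `T ≥ T₀` the number of
exceptional `n`-tuples is at most `C T^ε N^(n - 1)`, where `N` is the number of points. -/
theorem result {r u : ℕ} (s : ℕ) (x : Fin r → ℂ) (hx : ∀ i j (k : ℤ), x i = x j + k → i = j) (l : Fin u → ℂ)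
    (hl : ∀ (c : Fin u → ℤ) (k : ℤ), ∑ j, c j * l j = 2 * Real.pi * Complex.I * k → c = 0)
    (K : Set ℂ) (hK : IsCompact K) (hKx : ∀ z ∈ K, ∀ i, 0 < (z + x i).re) (m n g d : ℕ) (A ε : ℝ) (hε : 0 < ε) :
    ∃ B C T₀ : ℝ, ∀ (F : Type) [Field F] [NumberField F], Module.finrank ℚ F ≤ m → ∀ (ι : F →+* ℂ) (ξ : Fin g → ℂ)
      (T : ℝ), T₀ ≤ T → (Exceptional x l s n d F ι ξ K A B T).Finite ∧
        ((Exceptional x l s n d F ι ξ K A B T).ncard : ℝ) ≤ C * T ^ ε * ((Points F ι K T).ncard : ℝ) ^ (n - 1) := by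
  classical
  obtain ⟨e, c, he, hc, hval⟩ := exists_rep s x l
  have hl' : ∀ e e' : Fin u → ℕ, Complex.exp (∑ j, e j * l j) = Complex.exp (∑ j, e' j * l j) → e = e' := by
    intro e e' h
    obtain ⟨k, hk⟩ := Complex.exp_eq_exp_iff_exists_int.1 h
    have h1 := hl (fun j => (e j : ℤ) - (e' j : ℤ)) k (by
      push_cast
      simp only [sub_mul, Finset.sum_sub_distrib]
      rw [hk]
      ring)
    funext j
    have h2 := congrFun h1 j
    simp only [Pi.zero_apply] at h2
    omega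
  have hind : ∀ t ∈ K, Y124.LocInd (fun y z => value s x l z y) t := fun t ht =>
    Q23.AQ.locInd_smul c hc _ _ t hval (Q23.AQ.locInd_comp e he _ t
      (Q23.DM.fun3_loc (fun _ : Fin 1 => (1 : ℂ)) (fun _ _ _ => Subsingleton.elim _ _) x hx l hl' t (hKx t ht)))
  have han : ∀ y, ∀ t ∈ K, AnalyticAt ℂ (fun z => value s x l z y) t := by
    intro y t ht
    have h1 : (fun z => value s x l z y) = fun z => c y * Q23.DM.fun3 (fun _ : Fin 1 => (1 : ℂ)) x l (e y) z :=
      funext fun z => hval y z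
    rw [h1]
    exact analyticAt_const.mul (Q23.DM.fun3_an _ x l (e y) (hKx t ht))
  have h := Y771.RP.main' m n g d (fun y z => value s x l z y) K hK han hind A ε hε
  exact h

end Pool.Agent.Results.MP_26ad15_nt.GammaAndDerivatives
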