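import Pool.Agent.Q23.MV.Crit
import Pool.Agent.Q23.MV.Few

/-!
# `Γ` and all its derivatives at affine combinations of several parameters, jointly with exponentials

For a point `x` of `ℂ^n` we consider the numbers `Γ(k_i·x + y_i)` and `ψ^(j)(k_i·x + y_i)`, `j < s`, where `ψ = Γ'/Γ`
(they generate the field of the numbers `Γ^(j)(k_i·x + y_i)`, `j ≤ s`), for rational vectors `k_i ≠ 0` and complex `y_i`,
and `exp(L_i·x)` for real vectors `L_i`, linearly independent over `ℚ`. For instance the numbers `Γ(q)`, `Γ(r)`, `Γ(q + r)`,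
`Γ(q + 2 r + 1/3)`, …, `e^q`, `e^r`, `2^q`, `2^r`, … with two parameters `q`, `r`.

The functions `Γ(k_i·x + y_i)` are related by the translation, reflection and multiplication formulas through the
indicator functions of the sets `{z ∈ ℂ^n : k_i·z ∈ y_i + ℤ}`. We assume that these indicator functions are linearly
independent.

(1) Then all these functions are algebraically independent over `ℂ(x_1, …, x_n)`.

(2) For the points `x` of `F^n`, `F` a number field of bounded degree, of height at most `T`, the numbers satisfy no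
polynomial relation of bounded degree and of height at most `T^A`, even with arbitrary complex constants, outside at
most `C T^ε` hypersurfaces of bounded degree.

(3) The hypothesis holds if any two of the vectors `k_i` are not proportional, or equal with `y_i - y_j` not an integer.
-/

set_option autoImplicit false

open Set Filter Topology NumberField

namespace Pool.Agent.Results.MP_26ad15_nt.SeveralParameters

/-- The points `x` of `ℂ^n` such that no `k_i·x + y_i` is a pole of `Γ`. -/
def Dom {n r : ℕ} (k : Fin r → Fin n → ℚ) (y : Fin r → ℂ) : Set (Fin n → ℂ) :=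
  {x | ∀ i (m : ℕ), ∑ j, (k i j : ℂ) * x j + y i ≠ -m}

/-- The values at `x`: `ψ^(j)(k_i·x + y_i)`, `j < s`, where `ψ = Γ'/Γ` (index `inl (inl (i, j))`), `Γ(k_i·x + y_i)`
(index `inl (inr i)`) and `exp(L_i·x)` (index `inr i`). -/
noncomputable def value {n r u : ℕ} (s : ℕ) (k : Fin r → Fin n → ℚ) (y : Fin r → ℂ) (L : Fin u → Fin n → ℝ) :
    ((Fin r × Fin s) ⊕ Fin r) ⊕ Fin u → (Fin n → ℂ) → ℂ
  | Sum.inl (Sum.inl p), x => iteratedDeriv (p.2 : ℕ) Complex.digamma (∑ j, (k p.1 j : ℂ) * x j + y p.1)
  | Sum.inl (Sum.inr i), x => Complex.Gamma (∑ j, (k i j : ℂ) * x j + y i)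
  | Sum.inr i, x => Complex.exp (∑ j, (L i j : ℂ) * x j)

open Classical in
/-- The indicator functions of the sets `{z ∈ ℂ^n : k_i·z ∈ y_i + ℤ}` are linearly independent over `ℚ`. -/
def Independent {n r : ℕ} (k : Fin r → Fin n → ℚ) (y : Fin r → ℂ) : Prop :=
  ∀ m : Fin r → ℚ, (∀ z : Fin n → ℂ,
    ∑ i, m i * (if ∃ a : ℤ, ∑ j, (k i j : ℂ) * z j = y i + a then 1 else 0) = 0) → m = 0

/-- For every compact subset `L` of `U` and all `m`, `g`, `d`, `A` and `ε > 0` there are `D`, `C`, `T₀` such that for every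
number field `F` of degree at most `m`, every embedding `ι` of `F` in `ℂ`, all complex numbers `ξ_1, …, ξ_g` and all
`T ≥ T₀` there are at most `C T^ε` hypersurfaces `Q = 0` of degree at most `D` with the following property. If `x` is a
point with coordinates in `F` outside these hypersurfaces, with image in `L`, whose coordinates are quotients of two
integers of `F` all of whose conjugates have absolute value at most `T`, then no nonzero polynomial `P` of degree at most
`d` in each variable, with coefficients of the form `∑ ξ_a ι(c_a)`, where the `c_a` are integers of `F` all of whose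
conjugates have absolute value at most `T ^ A`, vanishes at the numbers `f y (ι x)`. -/
def FewRelations {X κ : Type} [Fintype X] (U : Set (X → ℂ)) (f : κ → (X → ℂ) → ℂ) : Prop :=
  ∀ L : Set (X → ℂ), IsCompact L → L ⊆ U → ∀ (m g d : ℕ) (A ε : ℝ), 0 < ε →
    ∃ (D : ℕ) (C T₀ : ℝ), ∀ (F : Type) [Field F] [NumberField F], Module.finrank ℚ F ≤ m → ∀ (ι : F →+* ℂ)
      (ξ : Fin g → ℂ) (T : ℝ), T₀ ≤ T → ∃ Φ : Finset (MvPolynomial X ℂ), (Φ.card : ℝ) ≤ C * T ^ ε ∧
        (∀ Q ∈ Φ, Q ≠ 0 ∧ Q.totalDegree ≤ D) ∧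
        ∀ x : X → F, (fun j => ι (x j)) ∈ L →
          (∀ j, ∃ a b : 𝓞 F, b ≠ 0 ∧ (∀ φ : F →+* ℂ, ‖φ a‖ ≤ T ∧ ‖φ b‖ ≤ T) ∧ x j = a / b) →
          (∀ Q ∈ Φ, MvPolynomial.eval (fun j => ι (x j)) Q ≠ 0) →
          ∀ P : MvPolynomial κ ℂ, P ≠ 0 → (∀ y, P.degreeOf y ≤ d) →
            (∀ s, ∃ c : Fin g → 𝓞 F, (∀ a (φ : F →+* ℂ), ‖φ (c a)‖ ≤ T ^ A) ∧ P.coeff s = ∑ a, ξ a * ι (c a)) →
            MvPolynomial.aeval (fun y => f y (fun j => ι (x j))) P ≠ 0

open Pool.Agent.Q23.MV Pool.Agent.Q136.LR

theorem dom_eq {n r : ℕ} (k : Fin r → Fin n → ℚ) (y : Fin r → ℂ) : Dom k y = DomM k y := rfl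

theorem value_eq {n r u : ℕ} (s : ℕ) (k : Fin r → Fin n → ℚ) (y : Fin r → ℂ) (L : Fin u → Fin n → ℝ) :
    value s k y L = Sum.elim (gM s k y) fun i x => Complex.exp (∑ j, (L i j : ℂ) * x j) := by
  funext a x
  rcases a with (p | i) | i <;> rfl

/-- **`Γ`, its derivatives and exponentials at several parameters.** Let `k_i` be nonzero rational vectors and `y_i`
complex numbers with linearly independent indicator functions of the sets `{z : k_i·z ∈ y_i + ℤ}`, and `L_i` real
vectors, linearly independent over `ℚ`. (1) No nonzero polynomial in the functions `ψ^(j)(k_i·x + y_i)`,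
`Γ(k_i·x + y_i)`, `exp(L_i·x)` with coefficients in `ℂ[x_1, …, x_n]` vanishes identically on a nonempty open set.
(2) There are few relations between their values in the sense of `FewRelations`, on the set of all points where the
functions are defined. (3) The hypothesis on the indicator functions is satisfied if for all `i ≠ i'` either `k_i` and
`k_i'` are not proportional, or `k_i = k_i'` and `y_i - y_i'` is not an integer. -/
theorem result :
    (∀ (n r u s : ℕ) (k : Fin r → Fin n → ℚ) (y : Fin r → ℂ) (L : Fin u → Fin n → ℝ), 1 ≤ n → (∀ i, k i ≠ 0) →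
      Independent k y → (∀ m : Fin u → ℤ, (∀ j, ∑ i, (m i : ℝ) * L i j = 0) → m = 0) →
      (∀ U : Set (Fin n → ℂ), IsOpen U → U.Nonempty → U ⊆ Dom k y →
        ∀ P : MvPolynomial (((Fin r × Fin s) ⊕ Fin r) ⊕ Fin u) (MvPolynomial (Fin n) ℂ), P ≠ 0 →
          ∃ x ∈ U, MvPolynomial.eval₂ (MvPolynomial.eval x) (fun a => value s k y L a x) P ≠ 0) ∧
      FewRelations (Dom k y) (value s k y L)) ∧
    ∀ (n r : ℕ) (k : Fin r → Fin n → ℚ) (y : Fin r → ℂ), (∀ i, k i ≠ 0) →
      (∀ i i', i ≠ i' → (∀ c : ℚ, k i ≠ c • k i') ∨ (k i = k i' ∧ ∀ a : ℤ, y i - y i' ≠ a)) → Independent k y := by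
  classical
  refine ⟨fun n r u s k y L hn hk hind hL => ⟨fun U hUo hne hU P hP => ?_, ?_⟩, fun n r k y hk h => ?_⟩
  · by_contra hcon
    push Not at hcon
    apply hP
    refine gM_ind s k y hk (fun m hm => hind m fun z => hm z) L hL U hUo hne (by rwa [← dom_eq]) P fun x hx => ?_
    rw [← value_eq]
    exact hcon x hx
  · haveI : Nonempty (Fin n) := ⟨⟨0, hn⟩⟩
    intro Lc hLc hLU m g d A ε hε
    have han : ∀ a, AnalyticOnNhd ℂ (value s k y L a) (DomM k y) := by
      intro a x hx
      rw [value_eq]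
      rcases a with a | i
      · exact gM_an s k y a x hx
      · change AnalyticAt ℂ (fun x : Fin n → ℂ => Complex.exp (∑ j, (L i j : ℂ) * x j)) x
        exact (Finset.analyticAt_fun_sum _ fun j _ => analyticAt_const.mul
          ((ContinuousLinearMap.proj (R := ℂ) (φ := fun _ : Fin n => ℂ) j).analyticAt x)).cexp
    refine mvFew (domM_conn k y) (domM_open k y) (domM_ne k hk y) han (fun p hp => ?_) Lc hLc hLU m g d A ε hε
    refine gM_ind s k y hk (fun m hm => hind m fun z => hm z) L hL (DomM k y) (domM_open k y) (domM_ne k hk y)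
      subset_rfl p fun x hx => ?_
    rw [← value_eq]
    exact hp x hx
  · intro m hm
    exact indM_of_pairwise k y hk h m fun z => hm z

end Pool.Agent.Results.MP_26ad15_nt.SeveralParameters
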