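import Pool.Agent.W175.GF.Final
import Pool.Agent.W253.GF.GTD
import Pool.Agent.Q311.MV.Ind

/-!
# Values of the Gamma function at algebraic functions of several variables, over all number fields

Let `y_1, …, y_n` be algebraic functions of `d` variables, analytic on a connected open set `Ω`, which satisfy condition
(H) of the conjecture as functions: no `y_i` is constant, and `y_i ∉ ℚ y_k + ℚ` for `i ≠ k`. For instance
`t_1, …, t_d, t_k + t_l, t_k t_l, t_k / t_l, …`: the number `n` can be much larger than `d`. We consider the numbers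
`Γ(y_1(s)), …, Γ(y_n(s))` for points `s` with coordinates in number fields `K`, in the open part `U` of `Ω` on which no
`y_i` is a pole of `Γ`.

There are bounds `ω T → ∞` such that for all number fields `K` of degree at most `ω T`, at all points `s` of `K ^ d` in `U`
of height at most `T` outside few hypersurfaces of small degree, the `n` numbers `Γ(y_i(s))` do not satisfy any nontrivial
relation of degree at most `ω T` whose coefficients are combinations of arbitrary complex constants `ξ` with integral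
coefficients in `K` of size at most `T ^ ω T`. (If the `y_i` are polynomials with algebraic coefficients, then this
includes the relations with coefficients which are polynomials in the arguments `z_i = y_i(s)`.) On the exceptional
hypersurfaces the points `z_i` may violate condition (H), so they cannot be avoided.

In `MP_26ad15_nt.AlgebraicCurves` the functions are functions of one variable and the degree of the field is bounded. The
functional independence is the theorem of Ax-Lindemann type of `MP_26ad15_nt.AxLindemann` (by helper175 and helper253).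
-/

set_option autoImplicit false

open Filter NumberField Pool.Agent.Q311.MV
open Pool.Agent.Y890.MV (InnerM evM)

namespace Pool.Agent.Results.MP_26ad15_nt.SeveralVariables

/-- the polynomial in the `x i`, of degree at most `k` in each of them, with the coefficients `∑ a, c l a * ξ a` -/
noncomputable def poly {ι : Type} [Fintype ι] [DecidableEq ι] {k : ℕ} (c : (ι → Fin (k + 1)) → Fin k → ℂ)
    (ξ : Fin k → ℂ) (x : ι → ℂ) : ℂ :=
  ∑ l : ι → Fin (k + 1), (∑ a, c l a * ξ a) * ∏ i, x i ^ (l i : ℕ)

/-- There is no nontrivial relation of degree at most `k` in each `x i` with coefficients of the form `∑ a, c l a * ξ a`,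
where the `c l a` are integers of `K` with all conjugates at most `T ^ k`. -/
def Independent {ι : Type} [Fintype ι] [DecidableEq ι] (k : ℕ) (K : Type) [Field K] [NumberField K] (io : K →+* ℂ)
    (ξ : Fin k → ℂ) (T : ℝ) (x : ι → ℂ) : Prop :=
  ∀ c : (ι → Fin (k + 1)) → Fin k → 𝓞 K, (∀ l a (φ : K →+* ℂ), ‖φ (c l a : K)‖ ≤ T ^ k) →
    poly (fun l a => io (c l a : K)) ξ x = 0 → ∀ l, ∑ a, io (c l a : K) * ξ a = 0

/-- the points of `Ω` at which no `y i` is a pole of `Γ` -/
def Regular {d n : ℕ} (Ω : Set (Fin d → ℂ)) (y : Fin n → (Fin d → ℂ) → ℂ) : Set (Fin d → ℂ) :=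
  {t | t ∈ Ω ∧ ∀ i, ∀ m : ℕ, y i t ≠ -m}

/-- the points with coordinates in `K` of height at most `T`, of norm at most `k` and at distance at least `1 / k` from the
complement of `U`, at which the numbers `Γ(y i)` are not independent -/
def Exceptional {d n : ℕ} (U : Set (Fin d → ℂ)) (y : Fin n → (Fin d → ℂ) → ℂ)
    (k : ℕ) (K : Type) [Field K] [NumberField K] (io : K →+* ℂ) (ξ : Fin k → ℂ) (T : ℝ) : Set (Fin d → K) :=
  {s | (∀ j, Y120.HtLe K T (s j)) ∧ (fun j => io (s j)) ∈ InnerM U k ∧
    ¬ Independent k K io ξ T fun i => Complex.Gamma (y i fun j => io (s j))}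

/-- Let `Ω ⊆ ℂ ^ d`, `d > 0`, be connected and `y i`, `i < n`, analytic on `Ω`, algebraic over the rational
functions, not constant, and not in `ℚ y k + ℚ` for `k ≠ i`. Let `U` be an open connected set of points of `Ω` at which no
`y i` is a pole of `Γ`. There is `ω → ∞` such that for all large `T`, all number fields `K` of degree at most `ω T`, all
embeddings and all complex numbers `ξ a`, `a < ω T`: the exceptional points lie on at most `T ^ (1 / ω T)` hypersurfaces of
degree at most `T ^ (1 / ω T)`, and there are at most `T ^ (1 / ω T) * N ^ (d - 1)` of them, `N` being the number of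
elements of `K` of height at most `T`. -/
theorem result {d n : ℕ} (hd : 0 < d) (Ω : Set (Fin d → ℂ)) (y : Fin n → (Fin d → ℂ) → ℂ) (hΩ : IsPreconnected Ω)
    (hy : ∀ i, AnalyticOnNhd ℂ (y i) Ω)
    (halg : ∀ i, ∃ Q : Polynomial (MvPolynomial (Fin d) ℂ), Q ≠ 0 ∧
      ∀ t ∈ Ω, (Q.map (MvPolynomial.eval t)).eval (y i t) = 0)
    (hnc : ∀ i, ∀ v : ℂ, ¬ ∀ t ∈ Ω, y i t = v)
    (hH : ∀ i k, i ≠ k → ∀ p q : ℚ, ¬ ∀ t ∈ Ω, y i t = p * y k t + q)
    (U : Set (Fin d → ℂ)) (hU : IsOpen U) (hUc : IsPreconnected U) (hne : U.Nonempty) (hUΩ : U ⊆ Regular Ω y) :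
    ∃ (ω : ℝ → ℕ) (T₀ : ℝ), Tendsto ω atTop atTop ∧ Monotone ω ∧ ∀ T, T₀ ≤ T → 0 < ω T ∧
      ∀ (K : Type) [Field K] [NumberField K], Module.finrank ℚ K ≤ ω T → ∀ (io : K →+* ℂ) (ξ : Fin (ω T) → ℂ),
        Y124.Cov ⌊T ^ ((ω T : ℝ)⁻¹)⌋₊ ⌊T ^ ((ω T : ℝ)⁻¹)⌋₊
          ((fun (s : Fin d → K) j => io (s j)) '' Exceptional U y (ω T) K io ξ T) ∧
        (Exceptional U y (ω T) K io ξ T).Finite ∧
        ((Exceptional U y (ω T) K io ξ T).ncard : ℝ) ≤
          T ^ ((ω T : ℝ)⁻¹) * ({x : K | Y120.HtLe K T x}.ncard : ℝ) ^ (d - 1) := by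
  classical
  have : Nonempty (Fin d) := ⟨⟨0, hd⟩⟩
  -- restriction of the hypotheses to `U`
  have hsub : U ⊆ Ω := fun t ht => (hUΩ ht).1
  have hext : ∀ g : (Fin d → ℂ) → ℂ, AnalyticOnNhd ℂ g Ω → (∀ t ∈ U, g t = 0) → ∀ t ∈ Ω, g t = 0 := by
    intro g hg h0
    obtain ⟨t₀, ht₀⟩ := hne
    have h1 : g =ᶠ[nhds t₀] 0 := by
      filter_upwards [hU.mem_nhds ht₀] with t ht
      exact h0 t ht
    exact hg.eqOn_zero_of_preconnected_of_eventuallyEq_zero hΩ (hsub ht₀) h1
  have hind : IndepM U fun i t => Complex.Gamma (y i t) := by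
    intro P hP
    by_contra hne0
    obtain ⟨t, ht, -, h1⟩ := Pool.Agent.W253.GF.gtd Pool.Agent.W175.GF.gtF d n U y hU hUc hne
      (fun i => (hy i).mono hsub) (fun i => by
        obtain ⟨Q, hQ, h⟩ := halg i
        exact ⟨Q, hQ, fun t ht => h t (hsub ht)⟩)
      (fun i v h => hnc i v fun t ht => sub_eq_zero.1
        (hext (fun t => y i t - v) ((hy i).sub analyticOnNhd_const) (fun t ht => sub_eq_zero.2 (h t ht)) t ht))
      (fun i k hik p q h => hH i k hik p q fun t ht => sub_eq_zero.1
        (hext (fun t => y i t - (p * y k t + q))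
          ((hy i).sub ((analyticOnNhd_const.mul (hy k)).add analyticOnNhd_const))
          (fun t ht => sub_eq_zero.2 (h t ht)) t ht)) P hne0
    apply h1
    rw [MvPolynomial.eval_map]
    exact hP t ht
  have han : ∀ i, AnalyticOnNhd ℂ (fun t => Complex.Gamma (y i t)) U := by
    intro i t ht
    have h1 : AnalyticAt ℂ Complex.Gamma (y i t) := by
      have h2 : AnalyticAt ℂ (fun s : ℂ => (Complex.Gamma s)⁻¹) (y i t) :=
        Complex.differentiable_one_div_Gamma.analyticAt _
      have h3 := h2.fun_inv (inv_ne_zero (Complex.Gamma_ne_zero fun m => (hUΩ ht).2 i m))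
      simpa using h3
    exact AnalyticAt.fun_comp (g := Complex.Gamma) (f := y i) h1 (hy i t (hsub ht))
  obtain ⟨ω, T₀, h1, h2, h3⟩ := Pool.Agent.Q311.MV.main hUc hU hne han hind (fun _ _ => 0)
  refine ⟨ω, T₀, h1, h2, fun T hT => ⟨(h3 T hT).1, fun K _ _ hK io ξ => ?_⟩⟩
  obtain ⟨h4, h5, h6⟩ := (h3 T hT).2 K hK io ξ
  have hs : Exceptional U y (ω T) K io ξ T ⊆
      {s : Fin d → K | (∀ j, Y120.HtLe K T (s j)) ∧ (fun j => io (s j)) ∈ InnerM U (ω T) ∧
            ¬ (Free (ω T) K io ξ T (fun i => Complex.Gamma (y i fun j => io (s j))) ∧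
              Free (ω T) K io (fun _ => 0) T (fun i => Complex.Gamma (y i fun j => io (s j))))} := by
    rintro s ⟨hs1, hs2, hs3⟩
    exact ⟨hs1, hs2, fun hf => hs3 fun c hc hv => hf.1 c hc hv⟩
  rw [Fintype.card_fin] at h6
  exact ⟨h4.mono le_rfl le_rfl (Set.image_mono hs), h5.subset hs,
    le_trans (by exact_mod_cast Set.ncard_le_ncard hs h5) h6⟩

end Pool.Agent.Results.MP_26ad15_nt.SeveralVariables
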